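import Mathlib

/-!
# Solutions of `a ^ 5 + b ^ 5 + c ^ 5 = d ^ 5`: the prime factors of the sums `a + b`, `a + c`, `b + c`

Let `a ^ 5 + b ^ 5 + c ^ 5 = d ^ 5` in positive integers and `s = a + b + c`.  Then
`s ^ 5 - d ^ 5 = 5 (a + b) (a + c) (b + c) Q` with `Q = a² + b² + c² + ab + ac + bc`.  The left side
is `(s - d) e ^ 4 Φ (u, v)`, where `e = gcd (s, d)`, the integers `u`, `v` are coprime and `Φ` is the
fifth cyclotomic form; the prime factors of `Φ (u, v)` are `5`, at most once, and primes that are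
`1` modulo `5`.  So every divisor of `(a + b) (a + c) (b + c) Q` without prime factors that are `1`
modulo `5` divides `(s - d) e ^ 4`.  If a prime `p` that is not `1` modulo `5` divides `b + c` and
`d`, but not all of `a`, `b`, `c`, then `p ^ 5` divides `5 (b + c)`.
-/

set_option autoImplicit false

namespace Pool.Agent.Results.MP_7683f6_nt.PairSums

/-- A prime factor of the cyclotomic form is `5` or is `1` modulo `5`. -/
theorem prime_dvd_form {u v : ℤ} {p : ℕ} (hp : p.Prime) (h1 : ¬ (p : ℤ) ∣ v)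
    (hd : (p : ℤ) ∣ u ^ 4 + u ^ 3 * v + u ^ 2 * v ^ 2 + u * v ^ 3 + v ^ 4) :
    p = 5 ∨ p % 5 = 1 := by
  have := Fact.mk hp
  have hv : (v : ZMod p) ≠ 0 := fun h2 => h1 ((ZMod.intCast_zmod_eq_zero_iff_dvd v p).1 h2)
  have h2 : (u : ZMod p) ^ 4 + (u : ZMod p) ^ 3 * v + (u : ZMod p) ^ 2 * (v : ZMod p) ^ 2 +
      u * (v : ZMod p) ^ 3 + (v : ZMod p) ^ 4 = 0 := by
    have h3 := (ZMod.intCast_zmod_eq_zero_iff_dvd _ p).2 hd
    push_cast at h3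
    exact h3
  obtain ⟨t, ht⟩ : ∃ t : ZMod p, (u : ZMod p) = t * v := ⟨u / v, by field_simp⟩
  rw [ht] at h2
  have h3 : (t ^ 4 + t ^ 3 + t ^ 2 + t + 1) * (v : ZMod p) ^ 4 = 0 := by
    rw [← h2]; ring
  have h4 : t ^ 4 + t ^ 3 + t ^ 2 + t + 1 = 0 :=
    (mul_eq_zero.1 h3).resolve_right (pow_ne_zero _ hv)
  have h5 : t ^ 5 = 1 := by linear_combination (t - 1) * h4
  by_cases h6 : t = 1
  · left
    rw [h6] at h4
    have h7 : ((5 : ℕ) : ZMod p) = 0 := by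
      push_cast
      rw [← h4]; norm_num
    have h8 := (ZMod.natCast_eq_zero_iff 5 p).1 h7
    exact (Nat.prime_dvd_prime_iff_eq hp (by norm_num)).1 h8
  · right
    have : Fact (Nat.Prime 5) := ⟨by norm_num⟩
    have h7 : orderOf t = 5 := orderOf_eq_prime h5 h6
    have h8 : t ≠ 0 := by
      intro h9
      rw [h9] at h5
      norm_num at h5
    have h9 := ZMod.orderOf_dvd_card_sub_one h8
    rw [h7] at h9
    have := hp.two_le
    omega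

/-- A common prime factor of the form and of `v` divides `u`. -/
theorem not_dvd_of_form {u v : ℤ} (h : IsCoprime u v) {p : ℕ} (hp : p.Prime)
    (hd : (p : ℤ) ∣ u ^ 4 + u ^ 3 * v + u ^ 2 * v ^ 2 + u * v ^ 3 + v ^ 4) :
    ¬ (p : ℤ) ∣ v := by
  have hpi := Nat.prime_iff_prime_int.1 hp
  intro h2
  have h3 : (p : ℤ) ∣ u ^ 4 := by
    have h4 : u ^ 4 = (u ^ 4 + u ^ 3 * v + u ^ 2 * v ^ 2 + u * v ^ 3 + v ^ 4) -
        v * (u ^ 3 + u ^ 2 * v + u * v ^ 2 + v ^ 3) := by ring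
    rw [h4]
    exact dvd_sub hd (h2.mul_right _)
  exact hpi.not_isUnit (h.isUnit_of_dvd' (hpi.dvd_of_dvd_pow h3) h2)

/-- The cyclotomic form is not divisible by `25` unless `5` divides both variables. -/
theorem not_dvd_form {u v : ℤ} (h : ¬ (5 : ℤ) ∣ v) :
    ¬ (25 : ℤ) ∣ u ^ 4 + u ^ 3 * v + u ^ 2 * v ^ 2 + u * v ^ 3 + v ^ 4 := by
  intro hd
  have h5 : Prime (5 : ℤ) := by norm_num
  have h1 : (5 : ℤ) ∣ (u - v) ^ 4 := by
    have h2 : (u - v) ^ 4 = (u ^ 4 + u ^ 3 * v + u ^ 2 * v ^ 2 + u * v ^ 3 + v ^ 4) -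
        5 * (u ^ 3 * v - u ^ 2 * v ^ 2 + u * v ^ 3) := by ring
    rw [h2]
    exact dvd_sub (dvd_trans (by norm_num) hd) (dvd_mul_right _ _)
  obtain ⟨k, hk⟩ := h5.dvd_of_dvd_pow h1
  have hu : u = v + 5 * k := by linarith
  have h3 : (5 : ℤ) ∣ v ^ 4 := by
    obtain ⟨w, hw⟩ := hd
    refine ⟨w - (2 * k * v ^ 3 + 10 * k ^ 2 * v ^ 2 + 25 * k ^ 3 * v + 25 * k ^ 4), ?_⟩
    rw [hu] at hw
    linarith [hw]
  exact h (h5.dvd_of_dvd_pow h3)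

theorem coprime_of {M : ℕ} (hM : ∀ p : ℕ, p.Prime → p ∣ M → p % 5 ≠ 1) {w : ℤ}
    (hw : ∀ p : ℕ, p.Prime → (p : ℤ) ∣ w → p % 5 = 1) : IsCoprime (M : ℤ) w := by
  rw [Int.isCoprime_iff_gcd_eq_one]
  refine Nat.coprime_of_dvd ?_
  intro p hp h1 h2
  exact hM p hp (by simpa using h1) (hw p hp (Int.natCast_dvd.2 h2))

/-- The main lemma. -/
theorem dvd_of_dvd_sub {M : ℕ} (hM : ∀ p : ℕ, p.Prime → p ∣ M → p % 5 ≠ 1) {s d : ℤ}
    (h : (5 * M : ℤ) ∣ s ^ 5 - d ^ 5) : (M : ℤ) ∣ (s - d) * (Int.gcd s d : ℤ) ^ 4 := by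
  rcases Nat.eq_zero_or_pos (Int.gcd s d) with h0 | h0
  · rw [h0]; simp
  obtain ⟨u, v, huv, hs, hd⟩ := Int.exists_gcd_one h0
  set e : ℤ := (Int.gcd s d : ℤ) with he
  have hc : IsCoprime u v := Int.isCoprime_iff_gcd_eq_one.2 huv
  have h1 : s ^ 5 - d ^ 5 = (s - d) * e ^ 4 *
      (u ^ 4 + u ^ 3 * v + u ^ 2 * v ^ 2 + u * v ^ 3 + v ^ 4) := by
    rw [hs, hd]; ring
  rw [h1] at h
  by_cases h5 : (5 : ℤ) ∣ u ^ 4 + u ^ 3 * v + u ^ 2 * v ^ 2 + u * v ^ 3 + v ^ 4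
  · obtain ⟨w, hw⟩ := h5
    have h2 : (M : ℤ) ∣ (s - d) * e ^ 4 * w := by
      rw [hw] at h
      have h3 : (s - d) * e ^ 4 * (5 * w) = 5 * ((s - d) * e ^ 4 * w) := by ring
      rw [h3] at h
      exact (mul_dvd_mul_iff_left (by norm_num : (5 : ℤ) ≠ 0)).1 h
    refine (coprime_of hM ?_).dvd_of_dvd_mul_right h2
    intro p hp hpw
    have hpf : (p : ℤ) ∣ u ^ 4 + u ^ 3 * v + u ^ 2 * v ^ 2 + u * v ^ 3 + v ^ 4 := by
      rw [hw]; exact hpw.mul_left _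
    rcases prime_dvd_form hp (not_dvd_of_form hc hp hpf) hpf with h3 | h3
    · exfalso
      refine not_dvd_form (v := v) (u := u) ?_ ?_
      · have h4 := not_dvd_of_form hc hp hpf
        rw [h3] at h4
        exact_mod_cast h4
      rw [hw]
      have h4 : (25 : ℤ) = 5 * (5 : ℕ) := by norm_num
      rw [h4]
      refine mul_dvd_mul_left 5 ?_
      rw [← h3]
      exact hpw
    · exact h3
  · refine (coprime_of hM ?_).dvd_of_dvd_mul_right ((dvd_mul_left _ _).trans h)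
    intro p hp hpw
    rcases prime_dvd_form hp (not_dvd_of_form hc hp hpw) hpw with h3 | h3
    · exfalso
      refine h5 ?_
      rw [h3] at hpw
      exact_mod_cast hpw
    · exact h3

/-- `y < x₁ + x₂ + x₃`. -/
theorem lt_sum {a b c d : ℕ} (ha : 0 < a) (hb : 0 < b) (hc : 0 < c)
    (h : a ^ 5 + b ^ 5 + c ^ 5 = d ^ 5) : d < a + b + c := by
  refine lt_of_pow_lt_pow_left₀ 5 (Nat.zero_le _) ?_
  rw [← h]
  have h1 : (a + b + c) ^ 5 = a ^ 5 + b ^ 5 + c ^ 5 + 5 * ((a + b) * (a + c) * (b + c) *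
      (a ^ 2 + b ^ 2 + c ^ 2 + a * b + a * c + b * c)) := by ring
  rw [h1]
  have h2 : 0 < 5 * ((a + b) * (a + c) * (b + c) *
      (a ^ 2 + b ^ 2 + c ^ 2 + a * b + a * c + b * c)) := by positivity
  omega

/-- The form for positive integers. -/
theorem pos_form {M : ℕ} (hM : ∀ p : ℕ, p.Prime → p ∣ M → p % 5 ≠ 1) {a b c d : ℕ}
    (ha : 0 < a) (hb : 0 < b) (hc : 0 < c) (h : a ^ 5 + b ^ 5 + c ^ 5 = d ^ 5)
    (hd : M ∣ (a + b) * (a + c) * (b + c) * (a ^ 2 + b ^ 2 + c ^ 2 + a * b + a * c + b * c)) :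
    M ∣ (a + b + c - d) * Nat.gcd (a + b + c) d ^ 4 := by
  have h1 := lt_sum ha hb hc h
  have h2 : (5 * M : ℤ) ∣ ((a + b + c : ℕ) : ℤ) ^ 5 - (d : ℤ) ^ 5 := by
    have h3 : ((a + b + c : ℕ) : ℤ) ^ 5 - (d : ℤ) ^ 5 = 5 * (((a + b) * (a + c) * (b + c) *
        (a ^ 2 + b ^ 2 + c ^ 2 + a * b + a * c + b * c) : ℕ) : ℤ) := by
      have h4 : (a : ℤ) ^ 5 + (b : ℤ) ^ 5 + (c : ℤ) ^ 5 = (d : ℤ) ^ 5 := by exact_mod_cast h
      push_cast
      linear_combination h4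
    rw [h3]
    exact mul_dvd_mul_left 5 (Int.natCast_dvd_natCast.2 hd)
  have h3 := dvd_of_dvd_sub hM h2
  rw [← Nat.cast_sub h1.le, Int.gcd_natCast_natCast] at h3
  exact_mod_cast h3

/-- A common prime factor of `b + c` and `d` is large in `b + c`. -/
theorem large_of_dvd {a b c d p : ℕ} (h : a ^ 5 + b ^ 5 + c ^ 5 = d ^ 5) (hp : p.Prime)
    (hp1 : p % 5 ≠ 1) (hg : ¬ (p ∣ a ∧ p ∣ b ∧ p ∣ c)) (hn : p ∣ b + c) (hd : p ∣ d) :
    p ∣ a ∧ (p ^ 5 ∣ b + c ∨ p = 5 ∧ p ^ 4 ∣ b + c) := by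
  have hpi := Nat.prime_iff_prime_int.1 hp
  have h1 : b + c ∣ b ^ 5 + c ^ 5 := (by decide : Odd 5).nat_add_dvd_pow_add_pow b c
  have h2 : p ∣ a := by
    have h3 : p ∣ a ^ 5 + (b ^ 5 + c ^ 5) := by
      rw [← add_assoc, h]
      exact hd.trans (dvd_pow_self d (by norm_num))
    exact hp.dvd_of_dvd_pow ((Nat.dvd_add_left (hn.trans h1)).1 h3)
  refine ⟨h2, ?_⟩
  have hc : ¬ (p : ℤ) ∣ -(c : ℤ) := by
    intro h3
    have h4 : p ∣ c := Int.natCast_dvd_natCast.1 (by simpa using h3)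
    exact hg ⟨h2, (Nat.dvd_add_left h4).1 hn, h4⟩
  have h3 : p ^ 5 ∣ b ^ 5 + c ^ 5 := by
    have h4 : p ^ 5 ∣ a ^ 5 + (b ^ 5 + c ^ 5) := by
      rw [← add_assoc, h]
      exact pow_dvd_pow_of_dvd hd 5
    exact (Nat.dvd_add_right (pow_dvd_pow_of_dvd h2 5)).1 h4
  set w : ℤ := (b : ℤ) ^ 4 + (b : ℤ) ^ 3 * (-c) + (b : ℤ) ^ 2 * (-c) ^ 2 + b * (-c) ^ 3 +
    (-c) ^ 4 with hw
  have h4 : (p : ℤ) ^ 5 ∣ (b + c : ℤ) * w := by
    have h5 : (b + c : ℤ) * w = ((b ^ 5 + c ^ 5 : ℕ) : ℤ) := by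
      rw [hw]; push_cast; ring
    rw [h5]
    exact_mod_cast h3
  have hcop : ∀ {x : ℤ} (k : ℕ), ¬ (p : ℤ) ∣ x → IsCoprime ((p : ℤ) ^ k) x := fun k hx =>
    ((hpi.irreducible.coprime_iff_not_dvd.2 hx)).pow_left
  by_cases h5 : (p : ℤ) ∣ w
  · rcases prime_dvd_form hp hc h5 with h6 | h6
    · right
      refine ⟨h6, ?_⟩
      subst h6
      obtain ⟨w', hw'⟩ := h5
      have h7 : ¬ ((5 : ℕ) : ℤ) ∣ w' := by
        intro h8
        obtain ⟨w'', hw''⟩ := h8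
        refine not_dvd_form (u := b) (v := -c) (by exact_mod_cast hc) ?_
        rw [← hw, hw', hw'']
        exact ⟨w'', by push_cast; ring⟩
      have h8 : ((5 : ℕ) : ℤ) ^ 4 ∣ (b + c : ℤ) * w' := by
        rw [hw'] at h4
        have h9 : (b + c : ℤ) * (((5 : ℕ) : ℤ) * w') = ((5 : ℕ) : ℤ) * ((b + c : ℤ) * w') := by
          ring
        rw [h9, show ((5 : ℕ) : ℤ) ^ 5 = ((5 : ℕ) : ℤ) * ((5 : ℕ) : ℤ) ^ 4 by ring] at h4
        exact (mul_dvd_mul_iff_left (by norm_num)).1 h4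
      have h10 := (hcop 4 h7).dvd_of_dvd_mul_right h8
      exact_mod_cast h10
    · exact absurd h6 hp1
  · left
    have h6 := (hcop 5 h5).dvd_of_dvd_mul_right h4
    exact_mod_cast h6

/-- `a + b + c - d < b + c`. -/
theorem sub_lt {a b c d : ℕ} (hb : 0 < b) (hc : 0 < c) (h : a ^ 5 + b ^ 5 + c ^ 5 = d ^ 5) :
    a + b + c - d < b + c := by
  have h1 : a < d := by
    refine lt_of_pow_lt_pow_left₀ 5 (Nat.zero_le _) ?_
    have : 0 < b ^ 5 := by positivity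
    omega
  omega

/-- The same, in one formula. -/
theorem pow_dvd_of_dvd {a b c d p : ℕ} (h : a ^ 5 + b ^ 5 + c ^ 5 = d ^ 5) (hp : p.Prime)
    (hp1 : p % 5 ≠ 1) (hg : ¬ (p ∣ a ∧ p ∣ b ∧ p ∣ c)) (hn : p ∣ b + c) (hd : p ∣ d) :
    p ^ 5 ∣ 5 * (b + c) := by
  rcases (large_of_dvd h hp hp1 hg hn hd).2 with h1 | ⟨h1, h2⟩
  · exact h1.mul_left 5
  · subst h1
    rw [pow_succ, mul_comm]
    exact mul_dvd_mul_left 5 h2

/-- A divisor `M` of `(a + b) (a + c) (b + c)` without prime factors that are `1` modulo `5`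
divides `a + b + c - d`, when `a`, `b`, `c` have no common prime factor and no prime factor `p` of
`M` divides `d` unless `p ^ 5` divides none of `5 (a + b)`, `5 (a + c)`, `5 (b + c)`. -/
theorem result (a b c d M : ℕ) (ha : 0 < a) (hb : 0 < b) (hc : 0 < c)
    (h : a ^ 5 + b ^ 5 + c ^ 5 = d ^ 5) (hg : Nat.gcd a (Nat.gcd b c) = 1)
    (hM : M ∣ (a + b) * (a + c) * (b + c))
    (hp : ∀ p : ℕ, p.Prime → p ∣ M → p % 5 ≠ 1 ∧
      (p ∣ d → ¬ p ^ 5 ∣ 5 * (a + b) ∧ ¬ p ^ 5 ∣ 5 * (a + c) ∧ ¬ p ^ 5 ∣ 5 * (b + c))) :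
    M ∣ a + b + c - d ∧ 0 < a + b + c - d ∧
      a + b + c - d < a + b ∧ a + b + c - d < a + c ∧ a + b + c - d < b + c := by
  have hM5 : ∀ p : ℕ, p.Prime → p ∣ M → p % 5 ≠ 1 := fun p h1 h2 => (hp p h1 h2).1
  have h1 := pos_form hM5 ha hb hc h (hM.mul_right _)
  have hcop : Nat.Coprime M (Nat.gcd (a + b + c) d) := by
    refine Nat.coprime_of_dvd ?_
    intro p hpp hpM hpe
    have hpd : p ∣ d := hpe.trans (Nat.gcd_dvd_right _ _)
    obtain ⟨h5, hd⟩ := hp p hpp hpM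
    obtain ⟨hd1, hd2, hd3⟩ := hd hpd
    have hg' : ¬ (p ∣ a ∧ p ∣ b ∧ p ∣ c) := by
      rintro ⟨h2, h3, h4⟩
      have h6 : p ∣ Nat.gcd a (Nat.gcd b c) := Nat.dvd_gcd h2 (Nat.dvd_gcd h3 h4)
      rw [hg] at h6
      exact hpp.one_lt.ne' (Nat.dvd_one.1 h6)
    rcases hpp.dvd_mul.1 (hpM.trans hM) with h3 | h3
    · rcases hpp.dvd_mul.1 h3 with h4 | h4
      · exact hd1 (pow_dvd_of_dvd (a := c) (by rw [← h]; ring) hpp h5
          (fun h6 => hg' ⟨h6.2.1, h6.2.2, h6.1⟩) h4 hpd)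
      · exact hd2 (pow_dvd_of_dvd (a := b) (by rw [← h]; ring) hpp h5
          (fun h6 => hg' ⟨h6.2.1, h6.1, h6.2.2⟩) h4 hpd)
    · exact hd3 (pow_dvd_of_dvd h hpp h5 hg' h3 hpd)
  have h3 := (hcop.pow_right 4).dvd_of_dvd_mul_right h1
  have h4 := lt_sum ha hb hc h
  have h5 := sub_lt hb hc h
  have h6 := sub_lt (a := b) (b := a) (c := c) (d := d) ha hc (by rw [← h]; ring)
  have h7 := sub_lt (a := c) (b := a) (c := b) (d := d) ha hb (by rw [← h]; ring)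
  refine ⟨h3, ?_, ?_, ?_, ?_⟩ <;> omega

end Pool.Agent.Results.MP_7683f6_nt.PairSums
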